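import Pool.Agent.H7.LP.Targets5

/-!
Row KSE of the board lpr: the embedding of a group with small pieces.
-/

set_option autoImplicit false

namespace Pool.Agent.H76.LR

open Set Filter Topology
open Pool.Agent.H7.LP Pool.Agent.H54.LP Pool.Agent.H93.CP Pool.Agent.H7.LR

theorem pf_KSE (h1 : T_QLC) (h2 : T_WRH) (h3 : T_X3) (h4 : T_X4) (h5 : T_X5) (h6 : T_PCL) :
    T_KSE := by
  intro G _ _ _ _ hG
  obtain ⟨U, hU⟩ := (𝓝 (1 : G)).exists_antitone_basis
  have hSP : ∀ n : ℕ, ∃ R H : Subgroup G, Piece R H ∧ ∀ r ∈ R, r ∈ U n :=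
    fun n => hG (U n) (hU.1.mem_of_mem trivial)
  choose R H hP hR using hSP
  have hQ := fun n => h1 G (R n) (H n) (hP n)
  choose K iG iT iTG iP iL π hπc hπo hπk using hQ
  have hX4 := fun n => h4 (K n)
  have iTW : ∀ n, IsTopologicalGroup (Wr (K n)) := fun n => (hX4 n).1
  have iPW : ∀ n, PolishSpace (Wr (K n)) := fun n => (hX4 n).2
  have hW := fun n => h2 G (K n) (H n) (π n) (hP n).op (hπc n)
  choose ψ hψc hψ using hW
  have hL : Nonempty (LPD (∀ n, Wr (K n))) := h3 (fun n => Wr (K n)) fun n => h5 (K n)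
  let φ : G →* ∀ n, Wr (K n) := Pi.monoidHom ψ
  have hφc : Continuous φ := continuous_pi fun n => hψc n
  have hind : IsInducing φ := by
    refine (IsTopologicalGroup.isInducing_iff_nhds_one (f := φ)).2 ?_
    refine le_antisymm ?_ ?_
    · have := hφc.tendsto 1
      rw [map_one] at this
      exact this.le_comap
    · intro O hO
      obtain ⟨O2, hO2, hO2O⟩ := exists_nhds_one_split hO
      obtain ⟨n, -, hn⟩ := hU.1.mem_iff.1 hO2
      have hV : (π n) '' {h : H n | (h : G) ∈ O2} ∈ 𝓝 (1 : K n) := by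
        have h7 : {h : H n | (h : G) ∈ O2} ∈ 𝓝 (1 : H n) := by
          exact continuous_subtype_val.continuousAt.preimage_mem_nhds (by simpa using hO2)
        have h8 := (hπo n).image_mem_nhds h7
        rwa [map_one] at h8
      obtain ⟨W, hW, hWg⟩ := hψ n _ hV
      refine mem_comap.2 ⟨{w | w n ∈ W}, ?_, ?_⟩
      · exact (continuous_apply n).continuousAt.preimage_mem_nhds hW
      · intro g hg
        obtain ⟨hgH, o, ho, hog⟩ := hWg g hg
        have h9 : π n (o⁻¹ * ⟨g, hgH⟩) = 1 := by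
          rw [map_mul, map_inv, hog, inv_mul_cancel]
        have h10 := hR n _ (hπk n _ h9)
        have h11 := hO2O o ho _ (hn h10)
        simpa using h11
  have hinj : Function.Injective φ := hind.injective
  exact ⟨∀ n, Wr (K n), inferInstance, inferInstance, inferInstance, inferInstance, φ, hL,
    ⟨⟨hind, hinj⟩, by
      have h12 := h6 G (∀ n, Wr (K n)) φ hind hinj
      rwa [MonoidHom.coe_range] at h12⟩⟩

end Pool.Agent.H76.LR
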